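import Pool.Agent.Helper29.CP.Base

/-!
MP_82cbb9_al, CP-5: saturated ideals and Artin–Rees.
-/

set_option autoImplicit false

namespace Pool.Agent.CP

open Polynomial TensorProduct

/-! ### a polynomial lemma -/

theorem cp5_poly {p : ℕ} (hp : p.Prime) (h : ℤ[X]) :
    ¬ C (p : ℤ) ∣ h →
    ∃ (e : ℤ) (m : ℕ) (q r : ℤ[X]), C e * h = X ^ m * (1 - X * q) + C (p : ℤ) * r := by
  refine Polynomial.recOnHorner h ?_ ?_ ?_
  · intro h0
    exact absurd (dvd_zero _) h0
  · intro h a h0 _ ih hd
    by_cases ha : (p : ℤ) ∣ a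
    · have hd' : ¬ C (p : ℤ) ∣ h := by
        intro hh
        exact hd (dvd_add hh (Polynomial.C_dvd_iff_dvd_coeff _ _ |>.2 (by
          intro i
          rw [coeff_C]
          split_ifs
          · exact ha
          · exact dvd_zero _)))
      obtain ⟨e, m, q, r, he⟩ := ih hd'
      obtain ⟨s, rfl⟩ := ha
      refine ⟨e, m, q, r + C (e * s), ?_⟩
      rw [mul_add, he]
      simp only [C_mul]
      ring
    · have hc : IsCoprime a (p : ℤ) := by
        have := (Nat.prime_iff_prime_int.1 hp).coprime_iff_not_dvd.2 ha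
        exact this.symm
      obtain ⟨e, s, hes⟩ := hc
      obtain ⟨h', rfl⟩ := X_dvd_iff.2 h0
      refine ⟨e, 0, - (C e * h'), - C s, ?_⟩
      have h1 : C e * C a = 1 - C s * C (p : ℤ) := by
        rw [← C_mul, ← C_mul, ← C_1, ← C_sub]
        congr 1
        linarith
      rw [mul_add, h1]
      ring
  · intro h _ ih hd
    have hd' : ¬ C (p : ℤ) ∣ h := fun hh => hd (hh.mul_right _)
    obtain ⟨e, m, q, r, he⟩ := ih hd'
    refine ⟨e, m + 1, q, r * X, ?_⟩
    rw [← mul_assoc, he]
    ring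

/-! ### projections -/

section Proj

variable {k : ℕ}

/-- the part of `f` with exponent of `t_a` at most `hi` -/
noncomputable def cp5P (a : Fin k) (hi : ℤ) : RR k →+ RR k :=
  MonoidAlgebra.coeffAddEquiv.symm.toAddMonoidHom.comp
    ((Finsupp.filterAddHom (fun t : TT k => Multiplicative.toAdd t a ≤ hi)).comp
      MonoidAlgebra.coeffAddEquiv.toAddMonoidHom)

theorem cp5P_coeff (a : Fin k) (hi : ℤ) (f : RR k) (t : TT k) :
    (cp5P a hi f).coeff t = if Multiplicative.toAdd t a ≤ hi then f.coeff t else 0 := by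
  simp only [cp5P, AddMonoidHom.coe_comp, Function.comp_apply, AddEquiv.toAddMonoidHom_eq_coe,
    AddMonoidHom.coe_coe, MonoidAlgebra.coeffAddEquiv_apply, MonoidAlgebra.coeffAddEquiv_symm_apply]
  exact Finsupp.filter_apply _ _ _

theorem cp5P_single_mul (a : Fin k) (hi : ℤ) (s : TT k) (hs : Multiplicative.toAdd s a = 0)
    (c : ℤ) (f : RR k) :
    cp5P a hi (MonoidAlgebra.single s c * f) = MonoidAlgebra.single s c * cp5P a hi f := by
  ext t
  rw [cp5P_coeff, MonoidAlgebra.coeff_single_mul_apply, MonoidAlgebra.coeff_single_mul_apply,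
    cp5P_coeff]
  have : Multiplicative.toAdd (s⁻¹ * t) a = Multiplicative.toAdd t a := by
    simp [hs]
  rw [this]
  split_ifs <;> simp

/-- `r` commutes with the projections -/
def cp5Comm (a : Fin k) (r : RR k) : Prop :=
  ∀ (hi : ℤ) (f : RR k), cp5P a hi (r * f) = r * cp5P a hi f

theorem cp5Comm_natCast (a : Fin k) (n : ℕ) : cp5Comm a (n : RR k) := by
  intro hi f
  rw [MonoidAlgebra.natCast_def]
  exact cp5P_single_mul a hi 1 (by simp) _ f

theorem cp5Comm_aeval (a b : Fin k) (hab : b ≠ a) (q : ℤ[X]) :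
    cp5Comm a (aeval (MonoidAlgebra.of ℤ (TT k) (tt b)) q : RR k) := by
  intro hi f
  induction q using Polynomial.induction_on' with
  | add p q hp hq =>
    rw [map_add, add_mul, map_add, hp, hq, add_mul]
  | monomial n c =>
    have h1 : (aeval (MonoidAlgebra.of ℤ (TT k) (tt b)) (monomial n c) : RR k)
        = MonoidAlgebra.single (tt b ^ n) c := by
      rw [aeval_monomial, ← map_pow, MonoidAlgebra.of_apply]
      rw [show (algebraMap ℤ (RR k)) c = MonoidAlgebra.single 1 c from by
        rw [MonoidAlgebra.coe_algebraMap]; rfl]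
      rw [MonoidAlgebra.single_mul_single, one_mul, mul_one]
    rw [h1]
    refine cp5P_single_mul a hi _ ?_ _ f
    simp [tt, hab.symm]

/-- stability of an ideal under the projections -/
theorem cp5P_mem (a : Fin k) (G : Set (RR k)) (hG : ∀ r ∈ G, cp5Comm a r) (hi : ℤ) (x : RR k)
    (hx : x ∈ Ideal.span G) : cp5P a hi x ∈ Ideal.span G := by
  have key : ∀ c : RR k, cp5P a hi (c * x) ∈ Ideal.span G := by
    refine Submodule.span_induction (p := fun x _ => ∀ c : RR k, cp5P a hi (c * x) ∈ Ideal.span G)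
      ?_ ?_ ?_ ?_ hx
    · intro r hr c
      rw [mul_comm, hG r hr]
      exact Ideal.mul_mem_right _ _ (Ideal.subset_span hr)
    · intro c
      simp
    · intro x y _ _ hx hy c
      rw [mul_add, map_add]
      exact Ideal.add_mem _ (hx c) (hy c)
    · intro a' x _ hx c
      rw [smul_eq_mul, ← mul_assoc]
      exact hx _
  simpa using key 1

/-- all exponents of `t_a` are at least `j` -/
def cp5GE (a : Fin k) (j : ℤ) (f : RR k) : Prop :=
  ∀ t : TT k, Multiplicative.toAdd t a < j → f.coeff t = 0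

theorem cp5GE_add (a : Fin k) (j : ℤ) {f g : RR k} (hf : cp5GE a j f) (hg : cp5GE a j g) :
    cp5GE a j (f + g) := by
  intro t ht
  rw [MonoidAlgebra.coeff_add, Finsupp.add_apply, hf t ht, hg t ht, add_zero]

theorem cp5GE_single_mul (a : Fin k) (i j : ℤ) {f : RR k} (hf : cp5GE a j f) (s : TT k)
    (hs : i ≤ Multiplicative.toAdd s a) (c : ℤ) : cp5GE a (i + j) (MonoidAlgebra.single s c * f) := by
  intro t ht
  rw [MonoidAlgebra.coeff_single_mul_apply, hf, mul_zero]
  simp only [toAdd_mul, toAdd_inv, Pi.add_apply, Pi.neg_apply]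
  linarith

theorem cp5GE_aeval_mul (a : Fin k) (j : ℤ) {f : RR k} (hf : cp5GE a j f) (q : ℤ[X]) :
    cp5GE a j ((aeval (MonoidAlgebra.of ℤ (TT k) (tt a)) q : RR k) * f) := by
  induction q using Polynomial.induction_on' with
  | add p q hp hq =>
    rw [map_add, add_mul]
    exact cp5GE_add a j hp hq
  | monomial n c =>
    have h1 : (aeval (MonoidAlgebra.of ℤ (TT k) (tt a)) (monomial n c) : RR k)
        = MonoidAlgebra.single (tt a ^ n) c := by
      rw [aeval_monomial, ← map_pow, MonoidAlgebra.of_apply]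
      rw [show (algebraMap ℤ (RR k)) c = MonoidAlgebra.single 1 c from by
        rw [MonoidAlgebra.coe_algebraMap]; rfl]
      rw [MonoidAlgebra.single_mul_single, one_mul, mul_one]
    rw [h1]
    have := cp5GE_single_mul a 0 j hf (tt a ^ n) (by simp [tt]) c
    rwa [zero_add] at this

theorem cp5P_eq_zero (a : Fin k) (hi j : ℤ) (hj : hi < j) {f : RR k} (hf : cp5GE a j f) :
    cp5P a hi f = 0 := by
  ext t
  rw [cp5P_coeff]
  split_ifs with h
  · rw [hf t (lt_of_le_of_lt h hj)]; simp
  · simp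

theorem cp5_exists_GE (a : Fin k) (f : RR k) : ∃ j, cp5GE a j f := by
  obtain ⟨M, hM⟩ := (f.coeff.support.image fun t : TT k => - Multiplicative.toAdd t a).exists_le
  refine ⟨-M, fun t ht => ?_⟩
  by_contra h
  have := hM _ (Finset.mem_image.2 ⟨t, Finsupp.mem_support_iff.2 h, rfl⟩)
  linarith

theorem cp5_exists_P (a : Fin k) (f : RR k) : ∃ hi, cp5P a hi f = f := by
  obtain ⟨M, hM⟩ := (f.coeff.support.image fun t : TT k => Multiplicative.toAdd t a).exists_le
  refine ⟨M, ?_⟩
  ext t
  rw [cp5P_coeff]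
  split_ifs with h
  · rfl
  · by_contra h'
    exact h (hM _ (Finset.mem_image.2 ⟨t, Finsupp.mem_support_iff.2 (Ne.symm h'), rfl⟩))

/-- `h (t_a)` is a non zero divisor modulo an ideal which contains `p` and is stable under the
projections -/
theorem cp5_regular {p : ℕ} (hp : p.Prime) (h : ℤ[X]) (hd : ¬ C (p : ℤ) ∣ h) (a : Fin k)
    (I : Ideal (RR k)) (hpI : (p : RR k) ∈ I) (hP : ∀ hi, ∀ x ∈ I, cp5P a hi x ∈ I) (g : RR k)
    (hg : (aeval (MonoidAlgebra.of ℤ (TT k) (tt a)) h : RR k) * g ∈ I) : g ∈ I := by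
  obtain ⟨e, m, q, r, he⟩ := cp5_poly hp h hd
  set u : RR k := MonoidAlgebra.of ℤ (TT k) (tt a) with hu
  set u' : RR k := MonoidAlgebra.of ℤ (TT k) (tt a)⁻¹ with hu'
  have huu : u' * u = 1 := by
    rw [hu, hu', ← map_mul, inv_mul_cancel, map_one]
  set Q : RR k := aeval u q with hQ
  have h1 : (algebraMap ℤ (RR k) e) * aeval u h = u ^ m * (1 - u * Q) + p * aeval u r := by
    have := congrArg (aeval u : ℤ[X] →ₐ[ℤ] RR k) he
    simpa only [map_mul, map_add, map_sub, map_pow, map_one, aeval_X, aeval_C, map_natCast] using this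
  have h2 : (1 - u * Q) * g ∈ I := by
    have e1 : (1 - u * Q) * g = u' ^ m * ((algebraMap ℤ (RR k) e) * (aeval u h * g)
        - p * (aeval u r * g)) := by
      have e2 : (algebraMap ℤ (RR k) e) * (aeval u h * g) - p * (aeval u r * g)
          = u ^ m * ((1 - u * Q) * g) := by
        linear_combination g * h1
      rw [e2, ← mul_assoc, ← mul_pow, huu, one_pow, one_mul]
    rw [e1]
    exact Ideal.mul_mem_left _ _ (Ideal.sub_mem _ (Ideal.mul_mem_left _ _ hg)
      (Ideal.mul_mem_right _ _ hpI))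
  have h3 : ∀ N : ℕ, g - (u * Q) ^ N * g ∈ I := by
    intro N
    induction N with
    | zero => simp
    | succ N ih =>
      have : g - (u * Q) ^ (N + 1) * g = (g - (u * Q) ^ N * g) + (u * Q) ^ N * ((1 - u * Q) * g) := by
        ring
      rw [this]
      exact Ideal.add_mem _ ih (Ideal.mul_mem_left _ _ h2)
  obtain ⟨j, hj⟩ := cp5_exists_GE a g
  obtain ⟨hi, hhi⟩ := cp5_exists_P a g
  have h4 : ∀ N : ℕ, cp5GE a (j + N) ((u * Q) ^ N * g) := by
    intro N
    induction N with
    | zero => simpa using hj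
    | succ N ih =>
      have e1 : (u * Q) ^ (N + 1) * g = MonoidAlgebra.single (tt a) 1 * (Q * ((u * Q) ^ N * g)) := by
        rw [← MonoidAlgebra.of_apply, ← hu]
        ring
      rw [e1]
      have := cp5GE_single_mul a 1 (j + N) (cp5GE_aeval_mul a _ ih q) (tt a) (by simp [tt]) 1
      push_cast
      rwa [show j + ((N : ℤ) + 1) = 1 + (j + N) by ring]
  have h5 : ∃ N : ℕ, hi < j + N := ⟨(hi - j + 1).toNat, by
    have := Int.self_le_toNat (hi - j + 1)
    linarith⟩
  obtain ⟨N, hN⟩ := h5
  have h6 := hP hi _ (h3 N)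
  rwa [map_sub, cp5P_eq_zero a hi _ hN (h4 N), sub_zero, hhi] at h6

/-- the ideal generated by the `h_b(t_b)`, `b ∈ S` -/
noncomputable def cp5I (h : Fin k → ℤ[X]) (S : Finset (Fin k)) : Ideal (RR k) :=
  Ideal.span ((fun b => (aeval (MonoidAlgebra.of ℤ (TT k) (tt b)) (h b) : RR k)) '' (S : Set (Fin k)))

theorem cp5_torsion (h : Fin k → ℤ[X]) (hh : ∀ a, (h a).IsPrimitive) (S : Finset (Fin k)) :
    ∀ n : ℕ, n ≠ 0 → ∀ f : RR k, (n : RR k) * f ∈ cp5I h S → f ∈ cp5I h S := by
  induction S using Finset.induction_on with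
  | empty =>
    intro n hn f hf
    simp only [cp5I, Finset.coe_empty, Set.image_empty, Ideal.span_empty, Ideal.mem_bot] at hf ⊢
    ext t
    have h1 : ((n : RR k) * f).coeff t = 0 := by rw [hf]; simp
    rw [MonoidAlgebra.natCast_def, MonoidAlgebra.coeff_single_mul_apply] at h1
    simp only [inv_one, one_mul, mul_eq_zero] at h1
    rcases h1 with h1 | h1
    · exact absurd (by exact_mod_cast h1) hn
    · simpa using h1
  | insert a S ha ih =>
    intro n
    induction n using induction_on_primes with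
    | zero => intro h0; exact absurd rfl h0
    | one => intro _ f hf; simpa using hf
    | prime_mul p n hp ihn =>
      intro hpn f hf
      have hn : n ≠ 0 := by rintro rfl; simp at hpn
      rw [Nat.cast_mul, mul_assoc] at hf
      refine ihn hn f ?_
      clear ihn hn hpn
      generalize hf' : (n : RR k) * f = F at hf ⊢
      clear hf' f n
      set w : RR k := aeval (MonoidAlgebra.of ℤ (TT k) (tt a)) (h a) with hw
      have hI : cp5I h (insert a S) = Ideal.span (insert w
          ((fun b => (aeval (MonoidAlgebra.of ℤ (TT k) (tt b)) (h b) : RR k)) '' (S : Set (Fin k)))) := by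
        rw [cp5I, Finset.coe_insert, Set.image_insert_eq]
      rw [hI, Ideal.mem_span_insert'] at hf ⊢
      obtain ⟨g, hg⟩ := hf
      -- `p F + g w ∈ I S`
      change _ ∈ cp5I h S at hg
      set I' : Ideal (RR k) := Ideal.span (insert (p : RR k)
          ((fun b => (aeval (MonoidAlgebra.of ℤ (TT k) (tt b)) (h b) : RR k)) '' (S : Set (Fin k))))
        with hI'
      have hle : cp5I h S ≤ I' := Ideal.span_mono (Set.subset_insert _ _)
      have hpI' : (p : RR k) ∈ I' := Ideal.subset_span (Set.mem_insert _ _)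
      have hstab : ∀ hi, ∀ x ∈ I', cp5P a hi x ∈ I' := by
        intro hi x hx
        refine cp5P_mem a _ ?_ hi x hx
        rintro r (rfl | ⟨b, hb, rfl⟩)
        · exact cp5Comm_natCast a p
        · exact cp5Comm_aeval a b (by rintro rfl; exact ha hb) _
      have hd : ¬ C (p : ℤ) ∣ h a := by
        intro hd
        have := hh a _ hd
        rw [Int.isUnit_iff] at this
        have h2 := hp.two_le
        omega
      have hgI : w * g ∈ I' := by
        have e1 : w * g = (p * F + g * w) - p * F := by ring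
        rw [e1]
        exact Ideal.sub_mem _ (hle hg) (Ideal.mul_mem_right _ _ hpI')
      have hg' := cp5_regular hp (h a) hd a I' hpI' hstab g hgI
      rw [hI', Ideal.mem_span_insert'] at hg'
      obtain ⟨g', hg'⟩ := hg'
      change _ ∈ cp5I h S at hg'
      -- `g + g' p ∈ I S`
      refine ⟨-g', ?_⟩
      change _ ∈ cp5I h S
      refine ih p hp.ne_zero _ ?_
      have e2 : (p : RR k) * (F + -g' * w) = (p * F + g * w) - w * (g + g' * p) := by ring
      rw [e2]
      exact Ideal.sub_mem _ hg (Ideal.mul_mem_left _ _ hg')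

end Proj

/-! ### the representation -/

section Rep

variable {k : ℕ}

theorem cp5_finiteType : Algebra.FiniteType ℤ (RR k) := by
  have h1 : AddMonoid.FG (Fin k → ℤ) := inferInstance
  have h2 : Monoid.FG (TT k) := inferInstance
  infer_instance

theorem cp5_noetherian : IsNoetherianRing (RR k) :=
  have := cp5_finiteType (k := k)
  Algebra.FiniteType.isNoetherianRing ℤ (RR k)

theorem cp5_int_aux {A : Type*} [CommRing A] [Algebra ℚ A] (x : A) (q : ℤ[X]) (hq : q ≠ 0)
    (hx : eval₂ (Int.castRingHom A) x q = 0) : IsIntegral ℚ x := by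
  rw [← isAlgebraic_iff_isIntegral]
  refine ⟨q.map (Int.castRingHom ℚ), ?_, ?_⟩
  · rwa [Polynomial.map_ne_zero_iff (Int.castRingHom ℚ).injective_int]
  · rw [aeval_def, eval₂_map, ← hx]
    congr 1
    exact RingHom.ext_int _ _

theorem cp5_finite {A : Type*} [CommRing A] [Algebra ℚ A] (φ : RR k →+* A)
    (hspan : ∀ y : A, y ∈ Submodule.span ℚ (Set.range φ)) (h : Fin k → ℤ[X]) (h0 : ∀ a, h a ≠ 0)
    (hH : ∀ a, φ (aeval (MonoidAlgebra.of ℤ (TT k) (tt a)) (h a) : RR k) = 0) :
    FiniteDimensional ℚ A := by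
  set s : Set A := Set.range (fun a => φ (MonoidAlgebra.of ℤ (TT k) (tt a))) ∪
    Set.range (fun a => φ (MonoidAlgebra.of ℤ (TT k) (tt a)⁻¹)) with hs
  have hsf : s.Finite := (Set.finite_range _).union (Set.finite_range _)
  have hint : ∀ x ∈ s, IsIntegral ℚ x := by
    have key : ∀ a, IsIntegral ℚ (φ (MonoidAlgebra.of ℤ (TT k) (tt a))) ∧
        IsIntegral ℚ (φ (MonoidAlgebra.of ℤ (TT k) (tt a)⁻¹)) := by
      intro a
      set x : A := φ (MonoidAlgebra.of ℤ (TT k) (tt a)) with hx
      set y : A := φ (MonoidAlgebra.of ℤ (TT k) (tt a)⁻¹) with hy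
      have hxy : x * y = 1 := by
        rw [hx, hy, ← map_mul, ← map_mul, mul_inv_cancel, map_one, map_one]
      have hyx : y * x = 1 := by rw [mul_comm, hxy]
      have hz : eval₂ (Int.castRingHom A) x (h a) = 0 := by
        rw [← hH a, aeval_def, hom_eval₂]
        congr 1
        exact RingHom.ext_int _ _
      let _ : Invertible x := ⟨y, hyx, hxy⟩
      refine ⟨cp5_int_aux x (h a) (h0 a) hz, ?_⟩
      refine cp5_int_aux y (h a).reverse (by simpa using h0 a) ?_
      exact (eval₂_reverse_eq_zero_iff (Int.castRingHom A) x (h a)).2 hz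
    rintro x (⟨a, rfl⟩ | ⟨a, rfl⟩)
    · exact (key a).1
    · exact (key a).2
  have hfg := fg_adjoin_of_finite hsf hint
  set B := Algebra.adjoin ℚ s with hB
  let S : Subgroup (TT k) :=
    { carrier := {t | φ (MonoidAlgebra.of ℤ (TT k) t) ∈ B ∧ φ (MonoidAlgebra.of ℤ (TT k) t⁻¹) ∈ B}
      one_mem' := by
        constructor
        · rw [map_one, map_one]; exact B.one_mem
        · rw [inv_one, map_one, map_one]; exact B.one_mem
      mul_mem' := by
        rintro a b ⟨ha, ha'⟩ ⟨hb, hb'⟩
        constructor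
        · rw [map_mul, map_mul]; exact B.mul_mem ha hb
        · rw [mul_inv, map_mul, map_mul]; exact B.mul_mem ha' hb'
      inv_mem' := by
        rintro a ⟨ha, ha'⟩
        refine ⟨ha', ?_⟩
        rw [inv_inv]
        exact ha }
  have hS : ∀ a, tt a ∈ S := fun a =>
    ⟨Algebra.subset_adjoin (Or.inl ⟨a, rfl⟩), Algebra.subset_adjoin (Or.inr ⟨a, rfl⟩)⟩
  have hT : ∀ t : TT k, φ (MonoidAlgebra.of ℤ (TT k) t) ∈ B := by
    intro t
    have ht : t ∈ S := by
      have e1 : t = ∏ a, (tt a) ^ (Multiplicative.toAdd t a) := by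
        apply Multiplicative.toAdd.injective
        ext j
        simp [toAdd_prod, toAdd_zpow, tt, Finset.sum_apply, Pi.single_apply]
      rw [e1]
      exact Subgroup.prod_mem _ fun a _ => Subgroup.zpow_mem _ (hS a) _
    exact ht.1
  have hX : ∀ x : RR k, φ x ∈ B := by
    intro x
    induction x using MonoidAlgebra.induction_linear with
    | zero => rw [map_zero]; exact B.zero_mem
    | add x y hx hy => rw [map_add]; exact B.add_mem hx hy
    | single t c =>
      have : (MonoidAlgebra.single t c : RR k) = (c : RR k) * MonoidAlgebra.of ℤ (TT k) t := by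
        rw [← zsmul_eq_mul]; simp
      rw [this, map_mul, map_intCast]
      exact B.mul_mem (intCast_mem B c) (hT t)
  have htop : (⊤ : Submodule ℚ A) = Subalgebra.toSubmodule B := by
    refine le_antisymm (fun y _ => ?_) le_top
    refine Submodule.span_le.2 ?_ (hspan y)
    rintro _ ⟨x, rfl⟩
    exact hX x
  refine ⟨?_⟩
  rw [htop]
  exact hfg

theorem cp5_exists_alg (H : Ideal (RR k))
    (hH : ∀ n : ℕ, n ≠ 0 → ∀ f : RR k, (n : RR k) * f ∈ H → f ∈ H) :
    ∃ (A : Type) (_ : CommRing A) (_ : Algebra ℚ A) (φ : RR k →+* A),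
      (∀ y : A, y ∈ Submodule.span ℚ (Set.range φ)) ∧ ∀ x, φ x = 0 ↔ x ∈ H := by
  have htf : Module.IsTorsionFree ℤ (RR k ⧸ H) := by
    refine ⟨fun r hr => ?_⟩
    rw [isSMulRegular_iff_right_eq_zero_of_smul]
    intro y hy
    obtain ⟨f, rfl⟩ := Ideal.Quotient.mk_surjective y
    have hr0 : r ≠ 0 := hr.ne_zero
    rw [Ideal.Quotient.eq_zero_iff_mem]
    have h1 : (r : RR k) * f ∈ H := by
      rw [← Ideal.Quotient.eq_zero_iff_mem, map_mul, map_intCast, ← hy, zsmul_eq_mul]
    refine hH r.natAbs (by simpa using hr0) f ?_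
    have h2 : ((r.natAbs : ℕ) : RR k) = (r : RR k) ∨ ((r.natAbs : ℕ) : RR k) = -(r : RR k) := by
      rcases Int.natAbs_eq r with h | h
      · left
        conv_rhs => rw [h]
        simp
      · right
        conv_rhs => rw [h]
        simp
    rcases h2 with h2 | h2
    · rwa [h2]
    · rw [h2, neg_mul]
      exact H.neg_mem h1
  have hinj := Algebra.TensorProduct.includeRight_injective (R := ℤ) (A := ℚ) (B := RR k ⧸ H)
    (by exact (algebraMap ℤ ℚ).injective_int)
  refine ⟨ℚ ⊗[ℤ] (RR k ⧸ H), inferInstance, inferInstance,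
    (Algebra.TensorProduct.includeRight :
      (RR k ⧸ H) →ₐ[ℤ] ℚ ⊗[ℤ] (RR k ⧸ H)).toRingHom.comp (Ideal.Quotient.mk H), ?_, ?_⟩
  · intro y
    induction y using TensorProduct.induction_on with
    | zero => exact Submodule.zero_mem _
    | add x y hx hy => exact Submodule.add_mem _ hx hy
    | tmul a b =>
      obtain ⟨f, rfl⟩ := Ideal.Quotient.mk_surjective b
      have : a ⊗ₜ[ℤ] (Ideal.Quotient.mk H f) = a • ((1 : ℚ) ⊗ₜ[ℤ] (Ideal.Quotient.mk H f)) := by
        rw [TensorProduct.smul_tmul', smul_eq_mul, mul_one]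
      rw [this]
      exact Submodule.smul_mem _ _ (Submodule.subset_span ⟨f, rfl⟩)
  · intro x
    constructor
    · intro hx
      have h2 : Ideal.Quotient.mk H x = 0 := hinj (by rw [map_zero]; exact hx)
      exact Ideal.Quotient.eq_zero_iff_mem.1 h2
    · intro hx
      have h2 : Ideal.Quotient.mk H x = 0 := Ideal.Quotient.eq_zero_iff_mem.2 hx
      simp only [RingHom.comp_apply, h2, map_zero]

end Rep

/-- CP-5 (saturated ideals and Artin–Rees) -/
theorem exists_rep {k d : ℕ} (M : Submodule (RR k) (Fin d → RR k)) (b : Fin k → ℤ[X])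
    (hb : ∀ a, (b a).IsPrimitive) :
    ∃ (E : Type) (_ : AddCommGroup E) (_ : Module ℚ E) (_ : FiniteDimensional ℚ E)
      (ρ : TT k →* Module.End ℚ E) (ε : Fin d → E), ∀ m ∈ M, kap ρ ε m = 0 →
        m ∈ (Ideal.span (Set.range fun a : Fin k =>
          (aeval (MonoidAlgebra.of ℤ (TT k) (tt a)) (b a) : RR k))) • M := by
  set J : Ideal (RR k) := Ideal.span (Set.range fun a : Fin k =>
          (aeval (MonoidAlgebra.of ℤ (TT k) (tt a)) (b a) : RR k)) with hJ
  have : IsNoetherianRing (RR k) := cp5_noetherian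
  obtain ⟨n, hn⟩ := Ideal.exists_pow_inf_eq_pow_smul J M
  have hn1 := hn (n + 1) (Nat.le_succ n)
  rw [Nat.add_sub_cancel_left, pow_one] at hn1
  set h : Fin k → ℤ[X] := fun a => (b a) ^ (n + 1) with hh
  have hprim : ∀ a, (h a).IsPrimitive := by
    intro a
    have : ∀ N : ℕ, ((b a) ^ N).IsPrimitive := by
      intro N
      induction N with
      | zero => rw [pow_zero]; exact isPrimitive_one
      | succ N ih => rw [pow_succ]; exact ih.mul (hb a)
    exact this (n + 1)
  set H : Ideal (RR k) := cp5I h Finset.univ with hHdef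
  have hHJ : H ≤ J ^ (n + 1) := by
    rw [hHdef, cp5I, Ideal.span_le]
    rintro r ⟨a, _, rfl⟩
    simp only [hh, map_pow, SetLike.mem_coe]
    exact Ideal.pow_mem_pow (Ideal.subset_span (Set.mem_range_self a)) _
  have hH0 : ∀ a, (aeval (MonoidAlgebra.of ℤ (TT k) (tt a)) (h a) : RR k) ∈ H := by
    intro a
    rw [hHdef, cp5I]
    refine Ideal.subset_span ⟨a, ?_, rfl⟩
    simp
  obtain ⟨A, _, _, φ, hspan, hker⟩ := cp5_exists_alg H (cp5_torsion h hprim _)
  have hfin : FiniteDimensional ℚ A :=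
    cp5_finite φ hspan h (fun a => (hprim a).ne_zero) (fun a => (hker _).2 (hH0 a))
  let ρ : TT k →* Module.End ℚ (Fin d → A) :=
    ((Algebra.lsmul ℚ ℚ (Fin d → A) : A →ₐ[ℚ] _) : A →* _).comp
      ((φ : RR k →* A).comp (MonoidAlgebra.of ℤ (TT k)))
  refine ⟨Fin d → A, inferInstance, inferInstance, inferInstance, ρ, fun i => Pi.single i 1, ?_⟩
  intro m hm hk
  have key : ∀ (x : RR k) (v : Fin d → A),
      (MonoidAlgebra.lift ℤ (Module.End ℚ (Fin d → A)) (TT k) ρ) x v = φ x • v := by
    intro x v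
    induction x using MonoidAlgebra.induction_linear with
    | zero => rw [map_zero, map_zero, zero_smul]; rfl
    | add x y hx hy => rw [map_add, map_add, LinearMap.add_apply, hx, hy, add_smul]
    | single t c =>
      rw [MonoidAlgebra.lift_single]
      have : (MonoidAlgebra.single t c : RR k) = c • MonoidAlgebra.of ℤ (TT k) t := by
        simp
      rw [this, map_zsmul, smul_assoc]
      rfl
  have hcoord : ∀ i, φ (m i) = 0 := by
    intro i
    have h1 := congrFun hk i
    simp only [kap, key] at h1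
    rw [Finset.sum_apply, Finset.sum_eq_single i] at h1
    · simpa using h1
    · intro j _ hj
      rw [Pi.smul_apply, Pi.single_eq_of_ne hj.symm, smul_zero]
    · intro hi
      exact absurd (Finset.mem_univ i) hi
  have hmH : ∀ i, m i ∈ H := fun i => (hker _).1 (hcoord i)
  have hmJ : m ∈ (J ^ (n + 1)) • (⊤ : Submodule (RR k) (Fin d → RR k)) := by
    have e1 : m = ∑ i, m i • (Pi.single i 1 : Fin d → RR k) := by
      ext1 j
      simp [Finset.sum_apply, Pi.single_apply]
    rw [e1]
    exact Submodule.sum_mem _ fun i _ => Submodule.smul_mem_smul (hHJ (hmH i)) trivial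
  have hfinal : m ∈ J ^ (n + 1) • ⊤ ⊓ M := ⟨hmJ, hm⟩
  rw [hn1] at hfinal
  exact (smul_mono_right J (inf_le_right : J ^ n • ⊤ ⊓ M ≤ M)) hfinal

end Pool.Agent.CP
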